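import Pool.Agent.UMG.Final

/-!
# Sampling unlabelled multigraphs with degrees between 3 and `M^(1/2-η)`

For every `η` in `(0, 1/2)` there is a randomised algorithm which samples unlabelled multigraphs with a
given degree sequence `d` (all degrees at least 3 and at most `M^(1/2-η)`, where `M` is the sum of the
degrees) in polynomial time: conditional on success the law is exactly uniform on the isomorphism
classes, and it fails with probability at most `2^(-s)`.

The algorithm is a program `e` (see `Prog`, `eval`, `time`) which gets `n = d.length`, `M = d.sum`, the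
degrees, `s` and a number `r` (the random bits) as input.  `Om d` is the set of the multigraphs (symmetric
matrices) on `n` vertices with the multiset of degrees `d`.
-/

set_option autoImplicit false

open Pool.Agent.UMG

namespace Pool.Agent.Results.MP_34c13a_lc.MinimumDegreeThree

/-- **Main result.**  The random number `r` is uniform in `{0, …, 2^L - 1}`, `L = (n + M + s + 2)^C`.
`hits e d s L A` is the number of the `r` for which the program `e` outputs a multigraph of `Om d` isomorphic
to `A`, `fails e d s L` the number of the `r` for which it outputs no multigraph of `Om d`. -/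
theorem result (η : ℝ) (h0 : 0 < η) (h1 : η < 1 / 2) : ∃ (e : Prog) (C D : ℕ),
    ∀ d : List ℕ, d.Pairwise (· ≤ ·) → Even d.sum →
    (∀ k ∈ d, 3 ≤ k ∧ (k : ℝ) ≤ (d.sum : ℝ) ^ (1 / 2 - η)) → ∀ s : ℕ,
    (∀ r < 2 ^ (d.length + d.sum + s + 2) ^ C,
      time e (env d s r) ≤ (d.length + d.sum + s + 2) ^ D) ∧
    (∀ A ∈ Om d, ∀ B ∈ Om d, hits e d s ((d.length + d.sum + s + 2) ^ C) A =
      hits e d s ((d.length + d.sum + s + 2) ^ C) B) ∧
    2 ^ s * fails e d s ((d.length + d.sum + s + 2) ^ C) ≤ 2 ^ (d.length + d.sum + s + 2) ^ C :=
  Pool.Agent.UMG.resStmt η h0 h1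

end Pool.Agent.Results.MP_34c13a_lc.MinimumDegreeThree
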